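import Pool.Agent.H958.LR.Stm

/-!
# S_DCT: the Duminil-Copin, Tassion inequality in a finite product space (project LR, helper958)
-/

namespace Pool.Agent.H662.LRDCT

open Pool.Agent.H958.LR
open Finset hiding ext

section Gen

variable {I : Type} [Fintype I] [DecidableEq I]

/-- one-coordinate weight -/
noncomputable def w (P : I → ℝ) (i : I) (b : Bool) : ℝ := if b = true then P i else 1 - P i

/-- weight of a configuration -/
noncomputable def W (P : I → ℝ) (η : I → Bool) : ℝ := ∏ i, w P i (η i)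

/-- expectation -/
noncomputable def E (P : I → ℝ) (f : (I → Bool) → ℝ) : ℝ := ∑ η, W P η * f η

/-- the weight of the other coordinates -/
noncomputable def Rw (P : I → ℝ) (i : I) (η : I → Bool) : ℝ := ∏ j ∈ univ.erase i, w P j (η j)

/-- flip the coordinate `i` -/
def flip (i : I) (η : I → Bool) : I → Bool := Function.update η i (!(η i))

/-- the discrete derivative -/
def D (i : I) (f : (I → Bool) → ℝ) (η : I → Bool) : ℝ :=
  f (Function.update η i true) - f (Function.update η i false)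

lemma sum_W (P : I → ℝ) : ∑ η, W P η = 1 := by
  have h := Finset.prod_univ_sum (fun _ : I => (univ : Finset Bool)) (fun i b => w P i b)
  rw [Fintype.piFinset_univ] at h
  unfold W
  rw [← h]
  apply Finset.prod_eq_one
  intro i _
  simp [w]

lemma flip_flip (i : I) (η : I → Bool) : flip i (flip i η) = η := by
  funext j
  by_cases h : j = i
  · subst h; simp [flip]
  · simp [flip, h]

lemma sum_flip (i : I) (g : (I → Bool) → ℝ) : ∑ η, g (flip i η) = ∑ η, g η :=
  Equiv.sum_comp (Function.Involutive.toPerm (flip i) (flip_flip i)) g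

lemma W_eq (P : I → ℝ) (i : I) (η : I → Bool) : W P η = w P i (η i) * Rw P i η := by
  unfold W Rw
  rw [Finset.mul_prod_erase univ (fun j => w P j (η j)) (mem_univ i)]

lemma Rw_flip (P : I → ℝ) (i : I) (η : I → Bool) : Rw P i (flip i η) = Rw P i η := by
  unfold Rw
  apply Finset.prod_congr rfl
  intro j hj
  have : j ≠ i := (Finset.mem_erase.1 hj).1
  simp [flip, this]

lemma flip_self (i : I) (η : I → Bool) : flip i η i = !(η i) := by simp [flip]

lemma D_flip (i : I) (f : (I → Bool) → ℝ) (η : I → Bool) : D i f (flip i η) = D i f η := by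
  simp [D, flip, Function.update_idem]

lemma w_nonneg {P : I → ℝ} (hP : ∀ i, 0 ≤ P i ∧ P i ≤ 1) (i : I) (b : Bool) : 0 ≤ w P i b := by
  unfold w
  split_ifs
  · exact (hP i).1
  · linarith [(hP i).2]

lemma W_nonneg {P : I → ℝ} (hP : ∀ i, 0 ≤ P i ∧ P i ≤ 1) (η : I → Bool) : 0 ≤ W P η :=
  Finset.prod_nonneg fun i _ => w_nonneg hP i _

/-- Expectation of a function of the coordinate `i` times a function independent of it. -/
lemma two_E_coord (P : I → ℝ) (i : I) (g : Bool → ℝ) (h : (I → Bool) → ℝ)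
    (hh : ∀ η, h (flip i η) = h η) :
    2 * E P (fun η => g (η i) * h η) =
      (P i * g true + (1 - P i) * g false) * ∑ η, Rw P i η * h η := by
  have h1 : E P (fun η => g (η i) * h η) =
      ∑ η, W P (flip i η) * (g (flip i η i) * h (flip i η)) :=
    (sum_flip i (fun η => W P η * (g (η i) * h η))).symm
  have h2 : 2 * E P (fun η => g (η i) * h η) =
      ∑ η, (W P η * (g (η i) * h η) + W P (flip i η) * (g (flip i η i) * h (flip i η))) := by
    rw [Finset.sum_add_distrib, ← h1, two_mul]; rfl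
  rw [h2, Finset.mul_sum]
  apply Finset.sum_congr rfl
  intro η _
  rw [W_eq P i η, W_eq P i (flip i η), Rw_flip, hh, flip_self]
  cases hη : η i <;> simp [w] <;> ring

lemma E_coord (P : I → ℝ) (i : I) (g : Bool → ℝ) (h : (I → Bool) → ℝ)
    (hh : ∀ η, h (flip i η) = h η) :
    E P (fun η => g (η i) * h η) = (P i * g true + (1 - P i) * g false) * E P h := by
  have h1 := two_E_coord P i g h hh
  have h2 := two_E_coord P i (fun _ => 1) h hh
  simp only [mul_one, one_mul] at h2
  have h3 : P i + (1 - P i) = 1 := by ring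
  rw [h3, one_mul] at h2
  rw [← h2] at h1
  linarith

lemma Rw_sum_sign (P : I → ℝ) (i : I) (f : (I → Bool) → ℝ) :
    ∑ η, Rw P i η * ((if η i = true then 1 else -1) * f η) = E P (D i f) := by
  have h2 := two_E_coord P i (fun _ => 1) (D i f) (D_flip i f)
  simp only [mul_one, one_mul] at h2
  have h3 : P i + (1 - P i) = 1 := by ring
  rw [h3, one_mul] at h2
  have h1 : ∑ η, Rw P i η * ((if η i = true then 1 else -1) * f η) =
      ∑ η, Rw P i (flip i η) * ((if flip i η i = true then 1 else -1) * f (flip i η)) :=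
    (sum_flip i (fun η => Rw P i η * ((if η i = true then 1 else -1) * f η))).symm
  have h4 : 2 * ∑ η, Rw P i η * ((if η i = true then 1 else -1) * f η) =
      ∑ η, (Rw P i η * ((if η i = true then 1 else -1) * f η) +
        Rw P i (flip i η) * ((if flip i η i = true then 1 else -1) * f (flip i η))) := by
    rw [Finset.sum_add_distrib, ← h1, two_mul]
  have h5 : 2 * ∑ η, Rw P i η * ((if η i = true then 1 else -1) * f η) =
      ∑ η, Rw P i η * D i f η := by
    rw [h4]
    apply Finset.sum_congr rfl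
    intro η _
    rw [Rw_flip, flip_self]
    cases hη : η i
    · have e1 : Function.update η i false = η := by
        rw [← hη]; exact Function.update_eq_self i η
      have e2 : Function.update η i true = flip i η := by simp [flip, hη]
      simp [D, e1, e2]; ring
    · have e1 : Function.update η i true = η := by
        rw [← hη]; exact Function.update_eq_self i η
      have e2 : Function.update η i false = flip i η := by simp [flip, hη]
      simp [D, e1, e2]; ring
  linarith

/-- Russo's formula. -/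
lemma hasDerivAt_E (P : ℝ → I → ℝ) (P' : I → ℝ) (s : ℝ)
    (hP : ∀ i, HasDerivAt (fun s => P s i) (P' i) s) (f : (I → Bool) → ℝ) :
    HasDerivAt (fun s => E (P s) f) (∑ i, P' i * E (P s) (D i f)) s := by
  have h1 : ∀ (i : I) (b : Bool), HasDerivAt (fun s => w (P s) i b)
      ((if b = true then 1 else -1) * P' i) s := by
    intro i b
    cases b
    · simp only [w, Bool.false_eq_true, if_false]
      have := (hP i).const_sub 1
      simpa using this
    · simp only [w, if_true, one_mul]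
      exact hP i
  have h2 : ∀ η : I → Bool, HasDerivAt (fun s => W (P s) η)
      (∑ i, (∏ j ∈ univ.erase i, w (P s) j (η j)) • ((if η i = true then 1 else -1) * P' i)) s := by
    intro η
    exact HasDerivAt.fun_finsetProd fun i _ => h1 i (η i)
  have h3 : HasDerivAt (fun s => E (P s) f)
      (∑ η, (∑ i, (∏ j ∈ univ.erase i, w (P s) j (η j)) •
        ((if η i = true then 1 else -1) * P' i)) * f η) s := by
    unfold E
    exact HasDerivAt.fun_sum fun η _ => (h2 η).mul_const (f η)
  convert h3 using 1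
  simp_rw [Finset.sum_mul]
  rw [Finset.sum_comm]
  apply Finset.sum_congr rfl
  intro i _
  rw [← Rw_sum_sign, Finset.mul_sum]
  apply Finset.sum_congr rfl
  intro η _
  simp only [Rw, smul_eq_mul]
  ring

/-- Independence. -/
lemma E_mul (P : I → ℝ) (A : I → Prop) [DecidablePred A] (F G : (I → Bool) → ℝ)
    (hF : ∀ η η', (∀ i, A i → η i = η' i) → F η = F η')
    (hG : ∀ η η', (∀ i, ¬ A i → η i = η' i) → G η = G η') :
    E P (fun η => F η * G η) = E P F * E P G := by
  classical
  set mix : (I → Bool) → (I → Bool) → (I → Bool) := fun η η' i => if A i then η i else η' i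
    with hmix
  have hmm : ∀ η η', mix (mix η η') (mix η' η) = η := by
    intro η η'
    funext i
    simp only [hmix]
    split_ifs <;> rfl
  let Φ : (I → Bool) × (I → Bool) → (I → Bool) × (I → Bool) := fun x => (mix x.1 x.2, mix x.2 x.1)
  have hΦ : Function.Involutive Φ := by
    intro x
    simp only [Φ, hmm]
  have hW : ∀ η η', W P (mix η η') * W P (mix η' η) = W P η * W P η' := by
    intro η η'
    unfold W
    rw [← Finset.prod_mul_distrib, ← Finset.prod_mul_distrib]
    apply Finset.prod_congr rfl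
    intro i _
    simp only [hmix]
    split_ifs
    · rfl
    · ring
  have e1 : E P F * E P G = ∑ x : (I → Bool) × (I → Bool),
      (W P x.1 * F x.1) * (W P x.2 * G x.2) := by
    unfold E
    rw [Finset.sum_mul_sum, ← Finset.sum_product']
    rfl
  have e2 : ∑ x : (I → Bool) × (I → Bool), (W P x.1 * F x.1) * (W P x.2 * G x.2) =
      ∑ x : (I → Bool) × (I → Bool),
        (W P (Φ x).1 * W P (Φ x).2) * (F (Φ x).1 * G (Φ x).1) := by
    apply Finset.sum_congr rfl
    intro x _
    have f1 : F (mix x.1 x.2) = F x.1 := hF _ _ fun i hi => by simp [hmix, hi]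
    have f2 : G (mix x.1 x.2) = G x.2 := hG _ _ fun i hi => by simp [hmix, hi]
    simp only [Φ, f1, f2, hW]
    ring
  have e3 : ∑ x : (I → Bool) × (I → Bool),
        (W P (Φ x).1 * W P (Φ x).2) * (F (Φ x).1 * G (Φ x).1) =
      ∑ x : (I → Bool) × (I → Bool), (W P x.1 * W P x.2) * (F x.1 * G x.1) :=
    Equiv.sum_comp (Function.Involutive.toPerm Φ hΦ)
      (fun x => (W P x.1 * W P x.2) * (F x.1 * G x.1))
  rw [e1, e2, e3, Fintype.sum_prod_type]
  unfold E
  apply Finset.sum_congr rfl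
  intro η _
  have : ∑ y, W P η * W P y * (F η * G η) = (∑ y, W P y) * (W P η * (F η * G η)) := by
    rw [Finset.sum_mul]
    apply Finset.sum_congr rfl
    intro y _
    ring
  rw [this, sum_W, one_mul]

end Gen

section Paths

variable {Λ : Type}

/-- Backward sets, counted from the end. -/
def Bw (ω : Win Λ) (n : ℕ) : ℕ → Set Λ
  | 0 => Set.univ
  | m + 1 => {x | ∃ y ∈ Bw ω n m, Step ω (n - (m + 1)) x y}

/-- Backward sets. -/
def Bj (ω : Win Λ) (n j : ℕ) : Set Λ := Bw ω n (n - j)

/-- Their complements. -/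
def T (ω : Win Λ) (n j : ℕ) : Set Λ := (Bj ω n j)ᶜ

lemma Bj_top (ω : Win Λ) (n : ℕ) : Bj ω n n = Set.univ := by simp [Bj, Bw]

lemma Bj_large (ω : Win Λ) (n j : ℕ) (h : n ≤ j) : Bj ω n j = Set.univ := by
  have : n - j = 0 := Nat.sub_eq_zero_of_le h
  simp [Bj, this, Bw]

lemma Bj_succ (ω : Win Λ) {n j : ℕ} (hj : j < n) :
    Bj ω n j = {x | ∃ y ∈ Bj ω n (j + 1), Step ω j x y} := by
  obtain ⟨k, rfl⟩ : ∃ k, n = j + 1 + k := ⟨n - (j + 1), by omega⟩
  have e1 : j + 1 + k - j = k + 1 := by omega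
  have e2 : j + 1 + k - (j + 1) = k := by omega
  have e3 : j + 1 + k - (k + 1) = j := by omega
  unfold Bj
  rw [e1, e2]
  simp only [Bw, e3]

lemma Step_mono {ω ω' : Win Λ} (h : ∀ i, ω i = true → ω' i = true) {j : ℕ} {x y : Λ}
    (hs : Step ω j x y) : Step ω' j x y := by
  rcases hs with ⟨h1, h2⟩ | ⟨h1, h2⟩
  · exact Or.inl ⟨h1, h _ h2⟩
  · exact Or.inr ⟨h1, h _ h2⟩

lemma Fwd_mono {ω ω' : Win Λ} (h : ∀ i, ω i = true → ω' i = true) {o : Λ} :
    ∀ {j : ℕ} {x : Λ}, Fwd ω o j x → Fwd ω' o j x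
  | 0, _, hf => hf
  | _ + 1, _, ⟨z, hz, hs⟩ => ⟨z, Fwd_mono h hz, Step_mono h hs⟩

lemma Bj_mono {ω ω' : Win Λ} (h : ∀ i, ω i = true → ω' i = true) {n : ℕ} :
    ∀ (k : ℕ) {j : ℕ}, j + k = n → Bj ω n j ⊆ Bj ω' n j
  | 0, j, hk => by
      have : j = n := by omega
      subst this
      rw [Bj_top, Bj_top]
  | k + 1, j, hk => by
      rw [Bj_succ ω (by omega : j < n), Bj_succ ω' (by omega : j < n)]
      rintro x ⟨y, hy, hs⟩
      exact ⟨y, Bj_mono h k (by omega) hy, Step_mono h hs⟩

lemma surv_of {ω : Win Λ} {n : ℕ} {o : Λ} : ∀ (k : ℕ) {j : ℕ} {x : Λ}, j + k = n →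
    Fwd ω o j x → x ∈ Bj ω n j → ∃ y, Fwd ω o n y
  | 0, j, x, hk, hf, _ => by
      have : j = n := by omega
      subst this
      exact ⟨x, hf⟩
  | k + 1, j, x, hk, hf, hb => by
      rw [Bj_succ ω (by omega : j < n)] at hb
      obtain ⟨y, hy, hs⟩ := hb
      exact surv_of k (by omega) (show Fwd ω o (j + 1) y from ⟨x, hf, hs⟩) hy

lemma mem_zero_of {ω : Win Λ} {n : ℕ} {o : Λ} : ∀ (j : ℕ) {x : Λ}, j ≤ n →
    Fwd ω o j x → x ∈ Bj ω n j → o ∈ Bj ω n 0
  | 0, x, _, hf, hb => by
      have : x = o := hf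
      exact this ▸ hb
  | j + 1, x, hj, ⟨z, hz, hs⟩, hb => by
      refine mem_zero_of j (by omega) hz ?_
      rw [Bj_succ ω (by omega : j < n)]
      exact ⟨x, hb, hs⟩

lemma surv_iff (ω : Win Λ) (n : ℕ) (o : Λ) : (∃ y, Fwd ω o n y) ↔ o ∈ Bj ω n 0 := by
  constructor
  · rintro ⟨y, hy⟩
    exact mem_zero_of n le_rfl hy (by rw [Bj_top]; trivial)
  · intro h
    exact surv_of n (by omega) (show Fwd ω o 0 o from rfl) h

lemma Inner_mem {ω : Win Λ} {S : ℕ → Set Λ} {o : Λ} : ∀ {j : ℕ} {x : Λ},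
    Inner ω S o j x → x ∈ S j
  | 0, _, ⟨h1, h2⟩ => h1 ▸ h2
  | _ + 1, _, ⟨h1, _⟩ => h1

lemma Inner_Fwd {ω : Win Λ} {S : ℕ → Set Λ} {o : Λ} : ∀ {j : ℕ} {x : Λ},
    Inner ω S o j x → Fwd ω o j x
  | 0, _, ⟨h1, _⟩ => h1
  | _ + 1, _, ⟨_, z, h2, _, h4⟩ => ⟨z, Inner_Fwd h2, h4⟩

/-- Coordinates inside `S`. -/
def InC (S : ℕ → Set Λ) : (Sym2 Λ ⊕ Λ) × ℕ → Prop
  | (Sum.inl e, j) => ∀ x ∈ e, x ∈ S (j + 1)
  | (Sum.inr x, j) => x ∈ S (j + 1)

lemma Inner_congr {ω ω' : Win Λ} {S : ℕ → Set Λ} (h : ∀ i, InC S i → ω i = ω' i) {o : Λ} :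
    ∀ {j : ℕ} {x : Λ}, Inner ω S o j x → Inner ω' S o j x
  | 0, _, hf => hf
  | j + 1, x, ⟨h1, z, h2, h3, h4⟩ => by
      refine ⟨h1, z, Inner_congr h h2, h3, ?_⟩
      rcases h4 with ⟨e, h5⟩ | ⟨e, h5⟩
      · refine Or.inl ⟨e, ?_⟩
        rw [← h (Sum.inr z, j) (show z ∈ S (j + 1) from h3)]
        exact h5
      · refine Or.inr ⟨e, ?_⟩
        rw [← h (Sum.inl s(z, x), j) ?_]
        · exact h5
        · intro u hu
          rcases Sym2.mem_iff.1 hu with rfl | rfl
          · exact h3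
          · exact h1

lemma T_congr {ω ω' : Win Λ} {S : ℕ → Set Λ} {n : ℕ} (h : ∀ i, ¬ InC S i → ω i = ω' i)
    (hT : T ω n = S) : T ω' n = S := by
  have hB : ∀ j, Bj ω n j = (S j)ᶜ := by
    intro j
    rw [← hT]
    simp [T]
  have key : ∀ (k : ℕ) (j : ℕ), j + k = n → Bj ω' n j = Bj ω n j := by
    intro k
    induction k with
    | zero =>
      intro j hj
      have : j = n := by omega
      subst this
      rw [Bj_top, Bj_top]
    | succ k ih =>
      intro j hj
      have hjn : j < n := by omega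
      rw [Bj_succ ω' hjn, Bj_succ ω hjn, ih (j + 1) (by omega)]
      have hstep : ∀ x y, y ∈ Bj ω n (j + 1) → (Step ω' j x y ↔ Step ω j x y) := by
        intro x y hy
        rw [hB (j + 1)] at hy
        have hy' : y ∉ S (j + 1) := hy
        have e1 : ω (Sum.inr y, j) = ω' (Sum.inr y, j) := h _ hy'
        have e2 : ω (Sum.inl s(x, y), j) = ω' (Sum.inl s(x, y), j) := by
          apply h
          intro hc
          exact hy' (hc y (Sym2.mem_iff.2 (Or.inr rfl)))
        constructor
        · rintro (⟨a, b⟩ | ⟨a, b⟩)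
          · subst a; exact Or.inl ⟨rfl, by rw [e1]; exact b⟩
          · exact Or.inr ⟨a, by rw [e2]; exact b⟩
        · rintro (⟨a, b⟩ | ⟨a, b⟩)
          · subst a; exact Or.inl ⟨rfl, by rw [← e1]; exact b⟩
          · exact Or.inr ⟨a, by rw [← e2]; exact b⟩
      ext x
      simp only [Set.mem_ofPred_eq]
      constructor
      · rintro ⟨y, hy, hs⟩
        exact ⟨y, hy, (hstep x y hy).1 hs⟩
      · rintro ⟨y, hy, hs⟩
        exact ⟨y, hy, (hstep x y hy).2 hs⟩
  funext j
  rw [← hT]
  unfold T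
  by_cases hj : j ≤ n
  · rw [key (n - j) j (by omega)]
  · rw [Bj_large ω n j (by omega), Bj_large ω' n j (by omega)]

end Paths

section Main

open Classical

variable {Λ : Type} [Fintype Λ] [DecidableEq Λ]

/-- indicator -/
noncomputable def ind (a : Prop) : ℝ := if a then 1 else 0

lemma ind_nonneg (a : Prop) : 0 ≤ ind a := by unfold ind; split_ifs <;> norm_num
lemma ind_le_one (a : Prop) : ind a ≤ 1 := by unfold ind; split_ifs <;> norm_num
lemma ind_true {a : Prop} (h : a) : ind a = 1 := by simp [ind, h]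
lemma ind_false {a : Prop} (h : ¬ a) : ind a = 0 := by simp [ind, h]

/-- index set -/
abbrev Ix (Λ : Type) (n : ℕ) := (Sym2 Λ ⊕ Λ) × Fin n

/-- weights on the index set -/
def Pw (p : Sym2 Λ ⊕ Λ → ℝ) (n : ℕ) : Ix Λ n → ℝ := fun i => p i.1

lemma EP_eq (n : ℕ) (p : Sym2 Λ ⊕ Λ → ℝ) (A : Win Λ → Prop) :
    EP n p A = E (Pw p n) (fun η => ind (A (ext n η))) := by
  unfold EP E W w ind Pw
  rfl

/-- survival of the finite configuration -/
def Sv (n : ℕ) (o : Λ) (η : Ix Λ n → Bool) : Prop := ∃ y, Fwd (ext n η) o n y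

lemma ext_mono {n : ℕ} {η η' : Ix Λ n → Bool} (h : ∀ i, η i = true → η' i = true) :
    ∀ i, ext n η i = true → ext n η' i = true := by
  intro i hi
  unfold ext at hi ⊢
  split_ifs at hi ⊢ with h1
  exact h _ hi

lemma ext_val {n : ℕ} (η : Ix Λ n → Bool) (e : Sym2 Λ ⊕ Λ) (j : Fin n) :
    ext n η (e, (j : ℕ)) = η (e, j) := by
  simp [ext, j.2]

lemma upd_le (n : ℕ) (η : Ix Λ n → Bool) (i : Ix Λ n) :
    ∀ k, η k = true → Function.update η i true k = true := by
  intro k hk
  by_cases h : k = i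
  · subst h; simp
  · simp [h, hk]

lemma upd_false_le (n : ℕ) (η : Ix Λ n → Bool) (i : Ix Λ n) :
    ∀ k, Function.update η i false k = true → Function.update η i true k = true := by
  intro k hk
  by_cases h : k = i
  · subst h; simp
  · simpa [h] using hk

lemma Sv_mono {n : ℕ} {o : Λ} {η η' : Ix Λ n → Bool} (h : ∀ i, η i = true → η' i = true)
    (hs : Sv n o η) : Sv n o η' := by
  obtain ⟨y, hy⟩ := hs
  exact ⟨y, Fwd_mono (ext_mono h) hy⟩

lemma D_Sv_nonneg {n : ℕ} {o : Λ} (i : Ix Λ n) (η : Ix Λ n → Bool) :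
    0 ≤ D i (fun η => ind (Sv n o η)) η := by
  unfold D
  simp only
  by_cases h : Sv n o (Function.update η i false)
  · rw [ind_true h, ind_true (Sv_mono (upd_false_le n η i) h)]; norm_num
  · rw [ind_false h]; have := ind_nonneg (Sv n o (Function.update η i true)); linarith

/-- An exit coordinate is closed and pivotal. -/
lemma exit_pivot {n : ℕ} {o x y : Λ} {η : Ix Λ n → Bool} {j : Fin n} {c : Sym2 Λ ⊕ Λ}
    (ho : o ∉ Bj (ext n η) n 0) (hI : Inner (ext n η) (T (ext n η) n) o j x)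
    (hy : y ∉ T (ext n η) n (j + 1))
    (hc : ∀ ω : Win Λ, ω (c, (j : ℕ)) = true → Step ω j x y) :
    η (c, j) = false ∧ D (c, j) (fun η => ind (Sv n o η)) η = 1 := by
  have hyB : y ∈ Bj (ext n η) n (j + 1) := by
    by_contra h
    exact hy h
  have hx : x ∉ Bj (ext n η) n j := Inner_mem hI
  have h1 : η (c, j) = false := by
    by_contra h
    have h2 : ext n η (c, (j : ℕ)) = true := by
      rw [ext_val]
      simpa using h
    apply hx
    rw [Bj_succ _ j.2]
    exact ⟨y, hyB, hc _ h2⟩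
  refine ⟨h1, ?_⟩
  have e0 : Function.update η (c, j) false = η := by
    rw [← h1]; exact Function.update_eq_self _ η
  have h3 : ¬ Sv n o η := by
    intro h
    exact ho ((surv_iff _ n o).1 h)
  have h4 : Sv n o (Function.update η (c, j) true) := by
    have hm := ext_mono (upd_le n η (c, j))
    refine surv_of (n - j) (by have := j.2; omega) (Fwd_mono hm (Inner_Fwd hI)) ?_
    rw [Bj_succ _ j.2]
    refine ⟨y, Bj_mono hm (n - (j + 1)) (by have := j.2; omega) hyB, hc _ ?_⟩
    rw [ext_val]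
    simp
  unfold D
  simp only [e0]
  rw [ind_true h4, ind_false h3]
  norm_num

/-- The inequality for one window. -/
lemma window_le {n : ℕ} {o : Λ} {η : Ix Λ n → Bool} (p : Sym2 Λ ⊕ Λ → ℝ) (hp : ∀ i, 0 ≤ p i)
    (ho : o ∉ Bj (ext n η) n 0) (j : Fin n) :
    ∑ x, ind (Inner (ext n η) (T (ext n η) n) o j x) * exitW p (T (ext n η) n) j x ≤
      ∑ c, p c * (ind (η (c, j) = false) * D (c, j) (fun η => ind (Sv n o η)) η) := by
  set S := T (ext n η) n with hS
  set Q : Sym2 Λ ⊕ Λ → ℝ := fun c => ind (η (c, j) = false) * D (c, j) (fun η => ind (Sv n o η)) η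
    with hQ
  have hQ0 : ∀ c, 0 ≤ Q c := fun c => mul_nonneg (ind_nonneg _) (D_Sv_nonneg _ _)
  have hQ1 : ∀ (c : Sym2 Λ ⊕ Λ) (x y : Λ), Inner (ext n η) S o j x → y ∉ S (j + 1) →
      (∀ ω : Win Λ, ω (c, (j : ℕ)) = true → Step ω j x y) → Q c = 1 := by
    intro c x y h1 h2 h3
    obtain ⟨h4, h5⟩ := exit_pivot ho h1 h2 h3
    simp only [hQ]
    rw [ind_true h4, h5, one_mul]
  rw [Fintype.sum_sum_type]
  -- split the left side
  have hL : ∑ x, ind (Inner (ext n η) S o j x) * exitW p S j x =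
      (∑ x, ∑ z, if (Inner (ext n η) S o j x ∧ x ∈ S (j + 1) ∧ z ∉ S (j + 1))
        then p (Sum.inl s(x, z)) else 0) +
      ∑ x, (if (Inner (ext n η) S o j x ∧ x ∉ S (j + 1)) then p (Sum.inr x) else 0) := by
    rw [← Finset.sum_add_distrib]
    apply Finset.sum_congr rfl
    intro x _
    by_cases hI : Inner (ext n η) S o j x
    · rw [ind_true hI, one_mul]
      unfold exitW
      by_cases hx : x ∈ S (j + 1)
      · simp only [hx, if_true, hI, true_and, not_true, if_false, add_zero]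
        apply Finset.sum_congr rfl
        intro z _
        by_cases hz : z ∈ S (j + 1) <;> simp [hz]
      · simp [hx, hI]
    · rw [ind_false hI]
      simp [hI]
  rw [hL]
  apply add_le_add
  · rw [← Finset.sum_product' (f := fun x z => if (Inner (ext n η) S o j x ∧ x ∈ S (j + 1) ∧
        z ∉ S (j + 1)) then p (Sum.inl s(x, z)) else 0)]
    rw [← Finset.sum_filter]
    have hinj : Set.InjOn (fun u : Λ × Λ => s(u.1, u.2))
        ((univ ×ˢ univ : Finset (Λ × Λ)).filter (fun u => Inner (ext n η) S o j u.1 ∧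
          u.1 ∈ S (j + 1) ∧ u.2 ∉ S (j + 1)) : Finset (Λ × Λ)) := by
      rintro ⟨a, b⟩ hab ⟨a', b'⟩ hab' heq
      simp only [Finset.coe_filter, Set.mem_ofPred_eq] at hab hab'
      simp only [Sym2.eq_iff] at heq
      rcases heq with ⟨h1, h2⟩ | ⟨h1, h2⟩
      · rw [h1, h2]
      · exfalso
        apply hab'.2.2.2
        rw [← h1]
        exact hab.2.2.1
    have himg : ∑ u ∈ (univ ×ˢ univ : Finset (Λ × Λ)).filter (fun u => Inner (ext n η) S o j u.1 ∧
          u.1 ∈ S (j + 1) ∧ u.2 ∉ S (j + 1)), p (Sum.inl s(u.1, u.2)) =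
        ∑ e ∈ ((univ ×ˢ univ : Finset (Λ × Λ)).filter (fun u => Inner (ext n η) S o j u.1 ∧
          u.1 ∈ S (j + 1) ∧ u.2 ∉ S (j + 1))).image (fun u : Λ × Λ => s(u.1, u.2)),
          p (Sum.inl e) :=
      (Finset.sum_image (f := fun e => p (Sum.inl e)) hinj).symm
    rw [himg]
    calc _ = ∑ e ∈ ((univ ×ˢ univ : Finset (Λ × Λ)).filter (fun u => Inner (ext n η) S o j u.1 ∧
          u.1 ∈ S (j + 1) ∧ u.2 ∉ S (j + 1))).image (fun u : Λ × Λ => s(u.1, u.2)),
          p (Sum.inl e) * Q (Sum.inl e) := by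
          apply Finset.sum_congr rfl
          intro e he
          obtain ⟨⟨a, b⟩, hab, rfl⟩ := Finset.mem_image.1 he
          simp only [Finset.mem_filter] at hab
          obtain ⟨_, h1, h2, h3⟩ := hab
          rw [hQ1 (Sum.inl s(a, b)) a b h1 h3 (fun ω hω => Or.inr ⟨?_, hω⟩), mul_one]
          rintro rfl
          exact h3 h2
      _ ≤ ∑ e, p (Sum.inl e) * Q (Sum.inl e) :=
          Finset.sum_le_sum_of_subset_of_nonneg (Finset.subset_univ _)
            (fun e _ _ => mul_nonneg (hp _) (hQ0 _))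
  · apply Finset.sum_le_sum
    intro x _
    by_cases h : Inner (ext n η) S o j x ∧ x ∉ S (j + 1)
    · rw [if_pos h]
      change _ ≤ p (Sum.inr x) * Q (Sum.inr x)
      rw [hQ1 (Sum.inr x) x x h.1 h.2 (fun ω hω => Or.inl ⟨rfl, hω⟩), mul_one]
    · rw [if_neg h]
      exact mul_nonneg (hp _) (hQ0 _)

/-- Independence of `{T = S}` and the inner connections. -/
lemma indep_TI {n : ℕ} (p : Sym2 Λ ⊕ Λ → ℝ) (S : ℕ → Set Λ) (o : Λ) (j : ℕ) (x : Λ) :
    E (Pw p n) (fun η => ind (T (ext n η) n = S) * ind (Inner (ext n η) S o j x)) =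
      E (Pw p n) (fun η => ind (T (ext n η) n = S)) * FI p n S o j x := by
  unfold FI
  rw [EP_eq]
  refine E_mul (Pw p n) (fun i => ¬ InC S (i.1, (i.2 : ℕ))) _ _ ?_ ?_
  · intro η η' h
    have hx : ∀ i, ¬ InC S i → ext n η i = ext n η' i := by
      rintro ⟨c, k⟩ hi
      unfold ext
      simp only
      split_ifs with hk
      · exact h (c, ⟨k, hk⟩) hi
      · rfl
    have : (T (ext n η) n = S) ↔ (T (ext n η') n = S) :=
      ⟨fun h1 => T_congr hx h1, fun h1 => T_congr (fun i hi => (hx i hi).symm) h1⟩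
    simp only [this]
  · intro η η' h
    have hx : ∀ i, InC S i → ext n η i = ext n η' i := by
      rintro ⟨c, k⟩ hi
      unfold ext
      simp only
      split_ifs with hk
      · exact h (c, ⟨k, hk⟩) (not_not.2 hi)
      · rfl
    have : Inner (ext n η) S o j x ↔ Inner (ext n η') S o j x :=
      ⟨fun h1 => Inner_congr hx h1, fun h1 => Inner_congr (fun i hi => (hx i hi).symm) h1⟩
    simp only [this]

lemma thetaF_eq (n : ℕ) (o : Λ) (p : Sym2 Λ ⊕ Λ → ℝ) :
    thetaF p n o = E (Pw p n) (fun η => ind (Sv n o η)) := by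
  unfold thetaF
  rw [EP_eq]
  rfl

/-- The key inequality at a fixed parameter. -/
lemma key_le {n : ℕ} {o : Λ} (p : Sym2 Λ ⊕ Λ → ℝ) (c : ℝ) (hp : ∀ i, 0 ≤ p i ∧ p i ≤ 1)
    (hc : ∀ S : ℕ → Set Λ, o ∈ S 0 → S n = ∅ → c ≤ phiS p n S o) :
    c * (1 - thetaF p n o) ≤
      ∑ i : Ix Λ n, p i.1 * (1 - p i.1) * E (Pw p n) (D i (fun η => ind (Sv n o η))) := by
  have hPw : ∀ i, 0 ≤ Pw p n i ∧ Pw p n i ≤ 1 := fun i => hp _
  -- rewrite the right side as the expectation of a sum
  have h1 : ∀ i : Ix Λ n, p i.1 * (1 - p i.1) * E (Pw p n) (D i (fun η => ind (Sv n o η))) =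
      p i.1 * E (Pw p n) (fun η => ind (η i = false) * D i (fun η => ind (Sv n o η)) η) := by
    intro i
    have h2 := E_coord (Pw p n) i (fun b => ind (b = false)) (D i (fun η => ind (Sv n o η)))
      (D_flip i _)
    rw [h2]
    have e1 : ind (true = false) = 0 := ind_false (by simp)
    have e2 : ind True = 1 := ind_true trivial
    simp only [e1, e2, mul_zero, zero_add, mul_one, Pw]
    ring
  have h2 : ∑ i : Ix Λ n, p i.1 * (1 - p i.1) * E (Pw p n) (D i (fun η => ind (Sv n o η))) =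
      ∑ η, W (Pw p n) η * ∑ j : Fin n, ∑ c : Sym2 Λ ⊕ Λ,
        p c * (ind (η (c, j) = false) * D (c, j) (fun η => ind (Sv n o η)) η) := by
    rw [Finset.sum_congr rfl (fun i _ => h1 i)]
    unfold E
    simp_rw [Finset.mul_sum]
    rw [Finset.sum_comm]
    apply Finset.sum_congr rfl
    intro η _
    rw [Fintype.sum_prod_type_right]
    apply Finset.sum_congr rfl
    intro j _
    apply Finset.sum_congr rfl
    intro c _
    ring
  rw [h2]
  -- lower bound by the configurations which do not survive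
  have h3 : ∀ η : Ix Λ n → Bool, ind (¬ Sv n o η) * ∑ j : Fin n, ∑ x,
      ind (Inner (ext n η) (T (ext n η) n) o j x) * exitW p (T (ext n η) n) j x ≤
      ∑ j : Fin n, ∑ c : Sym2 Λ ⊕ Λ,
        p c * (ind (η (c, j) = false) * D (c, j) (fun η => ind (Sv n o η)) η) := by
    intro η
    by_cases hs : Sv n o η
    · rw [ind_false (not_not.2 hs), zero_mul]
      exact Finset.sum_nonneg fun j _ => Finset.sum_nonneg fun c _ =>
        mul_nonneg (hp _).1 (mul_nonneg (ind_nonneg _) (D_Sv_nonneg _ _))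
    · rw [ind_true hs, one_mul]
      apply Finset.sum_le_sum
      intro j _
      apply window_le p (fun i => (hp i).1)
      intro hB
      exact hs ((surv_iff _ n o).2 hB)
  refine le_trans ?_ (Finset.sum_le_sum fun η _ => mul_le_mul_of_nonneg_left (h3 η)
    (W_nonneg hPw η))
  -- decompose according to `T`
  set img : Finset (ℕ → Set Λ) := (univ : Finset (Ix Λ n → Bool)).image (fun η => T (ext n η) n)
    with himg
  have h4 : ∀ η : Ix Λ n → Bool, W (Pw p n) η * (ind (¬ Sv n o η) * ∑ j : Fin n, ∑ x,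
      ind (Inner (ext n η) (T (ext n η) n) o j x) * exitW p (T (ext n η) n) j x) =
      ∑ S ∈ img, W (Pw p n) η * (ind (T (ext n η) n = S) * (ind (o ∈ S 0) * ∑ j : Fin n, ∑ x,
      ind (Inner (ext n η) S o j x) * exitW p S j x)) := by
    intro η
    rw [Finset.sum_eq_single (T (ext n η) n)]
    · rw [ind_true rfl, one_mul]
      congr 2
      have : (¬ Sv n o η) ↔ o ∈ T (ext n η) n 0 := by
        rw [Sv, surv_iff]; rfl
      simp only [this]
    · intro S _ hS
      rw [ind_false (Ne.symm hS)]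
      ring
    · intro h
      exact absurd (Finset.mem_image.2 ⟨η, mem_univ _, rfl⟩) h
  rw [Finset.sum_congr rfl (fun η _ => h4 η), Finset.sum_comm]
  -- for each `S`
  have h5 : ∀ S : ℕ → Set Λ, ∑ η, W (Pw p n) η * (ind (T (ext n η) n = S) * (ind (o ∈ S 0) *
      ∑ j : Fin n, ∑ x, ind (Inner (ext n η) S o j x) * exitW p S j x)) =
      ind (o ∈ S 0) * (E (Pw p n) (fun η => ind (T (ext n η) n = S)) * phiS p n S o) := by
    intro S
    have : phiS p n S o = ∑ j : Fin n, ∑ x, FI p n S o j x * exitW p S j x := by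
      unfold phiS
      rw [Finset.sum_range]
    rw [this]
    simp_rw [Finset.mul_sum]
    rw [Finset.sum_comm]
    apply Finset.sum_congr rfl
    intro j _
    rw [Finset.sum_comm]
    apply Finset.sum_congr rfl
    intro x _
    have h6 := indep_TI (n := n) p S o j x
    calc _ = ind (o ∈ S 0) * exitW p S j x * E (Pw p n) (fun η => ind (T (ext n η) n = S) *
          ind (Inner (ext n η) S o j x)) := by
          unfold E
          rw [Finset.mul_sum]
          apply Finset.sum_congr rfl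
          intro η _
          ring
      _ = _ := by rw [h6]; ring
  rw [Finset.sum_congr rfl (fun S _ => h5 S)]
  have h7 : ∀ S ∈ img, c * (ind (o ∈ S 0) * E (Pw p n) (fun η => ind (T (ext n η) n = S))) ≤
      ind (o ∈ S 0) * (E (Pw p n) (fun η => ind (T (ext n η) n = S)) * phiS p n S o) := by
    intro S hS
    by_cases ho : o ∈ S 0
    · have hSn : S n = ∅ := by
        obtain ⟨η, _, rfl⟩ := Finset.mem_image.1 hS
        simp [T, Bj_top]
      have h8 := hc S ho hSn
      have h9 : 0 ≤ E (Pw p n) (fun η => ind (T (ext n η) n = S)) :=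
        Finset.sum_nonneg fun η _ => mul_nonneg (W_nonneg hPw η) (ind_nonneg _)
      rw [ind_true ho, one_mul, one_mul]
      nlinarith
    · rw [ind_false ho]; simp
  refine le_trans (le_of_eq ?_) (Finset.sum_le_sum h7)
  rw [← Finset.mul_sum]
  congr 1
  -- total mass
  have h10 : ∑ S ∈ img, ind (o ∈ S 0) * E (Pw p n) (fun η => ind (T (ext n η) n = S)) =
      ∑ η, W (Pw p n) η * ind (¬ Sv n o η) := by
    unfold E
    simp_rw [Finset.mul_sum]
    rw [Finset.sum_comm]
    apply Finset.sum_congr rfl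
    intro η _
    rw [Finset.sum_eq_single (T (ext n η) n)]
    · rw [ind_true rfl, mul_one]
      have : (¬ Sv n o η) ↔ o ∈ T (ext n η) n 0 := by
        rw [Sv, surv_iff]; rfl
      simp only [this]
      ring
    · intro S _ hS
      rw [ind_false (Ne.symm hS)]
      ring
    · intro h
      exact absurd (Finset.mem_image.2 ⟨η, mem_univ _, rfl⟩) h
  rw [h10, thetaF_eq]
  have h11 : (1 : ℝ) = ∑ η, W (Pw p n) η := (sum_W (Pw p n)).symm
  rw [h11]
  unfold E
  rw [← Finset.sum_sub_distrib]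
  apply Finset.sum_congr rfl
  intro η _
  change W (Pw p n) η - W (Pw p n) η * ind (Sv n o η) = _
  by_cases hs : Sv n o η
  · rw [ind_true hs, ind_false (not_not.2 hs)]; ring
  · rw [ind_false hs, ind_true hs]; ring

end Main

open Classical in
theorem s_dct : S_DCT := by
  intro Λ _ _ o n p p' s0 c hs0 hp hc
  have hder : ∀ s ∈ Set.Icc (0 : ℝ) s0, HasDerivAt (fun s => thetaF (p s) n o)
      (∑ i : Ix Λ n, p' s i.1 * E (Pw (p s) n) (D i (fun η => ind (Sv n o η)))) s := by
    intro s hs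
    have h1 : (fun s => thetaF (p s) n o) =
        fun s => E (Pw (p s) n) (fun η => ind (Sv n o η)) := by
      funext s
      exact thetaF_eq n o (p s)
    rw [h1]
    exact hasDerivAt_E (fun s => Pw (p s) n) (fun i => p' s i.1) s
      (fun i => (hp s hs i.1).2.2.1) _
  have hineq : ∀ s ∈ Set.Icc (0 : ℝ) s0, c * (1 - thetaF (p s) n o) ≤
      ∑ i : Ix Λ n, p' s i.1 * E (Pw (p s) n) (D i (fun η => ind (Sv n o η))) := by
    intro s hs
    have hp01 : ∀ i, 0 ≤ p s i ∧ p s i ≤ 1 := fun i => ⟨(hp s hs i).1, (hp s hs i).2.1⟩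
    refine le_trans (key_le (p s) c hp01 (fun S h1 h2 => hc s hs S h1 h2)) ?_
    apply Finset.sum_le_sum
    intro i _
    apply mul_le_mul_of_nonneg_right (hp s hs i.1).2.2.2
    exact Finset.sum_nonneg fun η _ => mul_nonneg (W_nonneg (fun i => hp01 _) η)
      (D_Sv_nonneg _ _)
  set g : ℝ → ℝ := fun s => (1 - thetaF (p s) n o) * Real.exp (c * s) with hg
  have hgder : ∀ s ∈ Set.Icc (0 : ℝ) s0, HasDerivAt g
      (-(∑ i : Ix Λ n, p' s i.1 * E (Pw (p s) n) (D i (fun η => ind (Sv n o η)))) *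
        Real.exp (c * s) + (1 - thetaF (p s) n o) * (Real.exp (c * s) * c)) s := by
    intro s hs
    have h1 : HasDerivAt (fun s => 1 - thetaF (p s) n o)
      (-(∑ i : Ix Λ n, p' s i.1 * E (Pw (p s) n) (D i (fun η => ind (Sv n o η))))) s := by
      have := (hder s hs).const_sub 1
      simpa using this
    have h2 : HasDerivAt (fun s => Real.exp (c * s)) (Real.exp (c * s) * c) s := by
      have := ((hasDerivAt_id s).const_mul c).exp
      simpa using this
    exact h1.mul h2
  have hanti : AntitoneOn g (Set.Icc 0 s0) := by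
    apply antitoneOn_of_deriv_nonpos (convex_Icc 0 s0)
    · intro s hs
      exact (hgder s hs).continuousAt.continuousWithinAt
    · intro s hs
      exact (hgder s (interior_subset hs)).differentiableAt.differentiableWithinAt
    · intro s hs
      have hs' := interior_subset hs
      rw [(hgder s hs').deriv]
      have h1 := hineq s hs'
      have h2 := Real.exp_pos (c * s)
      nlinarith
  have h0 : (0 : ℝ) ∈ Set.Icc 0 s0 := ⟨le_rfl, hs0⟩
  have h1 : s0 ∈ Set.Icc 0 s0 := ⟨hs0, le_rfl⟩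
  have h2 := hanti h0 h1 hs0
  have hp01 : ∀ i, 0 ≤ p 0 i ∧ p 0 i ≤ 1 := fun i => ⟨(hp 0 h0 i).1, (hp 0 h0 i).2.1⟩
  have h3 : 0 ≤ thetaF (p 0) n o := by
    rw [thetaF_eq]
    exact Finset.sum_nonneg fun η _ => mul_nonneg (W_nonneg (fun i => hp01 _) η) (ind_nonneg _)
  have h4 : g 0 ≤ 1 := by
    simp only [hg, mul_zero, Real.exp_zero, mul_one]
    linarith
  have h5 : (1 - thetaF (p s0) n o) * Real.exp (c * s0) ≤ 1 := le_trans h2 h4
  have h6 : Real.exp (-(c * s0)) * Real.exp (c * s0) = 1 := by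
    rw [← Real.exp_add]; simp
  have h7 : 1 - thetaF (p s0) n o ≤ Real.exp (-(c * s0)) := by
    have h8 := Real.exp_pos (c * s0)
    by_contra h
    push Not at h
    nlinarith
  linarith

end Pool.Agent.H662.LRDCT
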